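import Pool.Agent.W438.CY.Stm

/-!
# Part CY-INI of project CY (owner helper438): the initial neighbours
-/

set_option autoImplicit false

namespace Pool.Agent.W129.CY

open Pool.Agent.W438.CY

theorem I_true {p : Prop} (h : p) : I p = 1 := by
  unfold I
  rw [if_pos h]

theorem I_false {p : Prop} (h : ¬ p) : I p = 0 := by
  unfold I
  rw [if_neg h]

theorem sum_I_unique {m : ℕ} (P : Fin m → Prop) (j : Fin m) (hj : P j)
    (h : ∀ i, P i → i = j) : ∑ i, I (P i) = 1 := by
  rw [Finset.sum_eq_single j, I_true hj]
  · intro i _ hi
    exact I_false fun hPi => hi (h i hPi)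
  · intro hh
    exact absurd (Finset.mem_univ j) hh

theorem ini : S_INI := by
  classical
  intro m C x g β
  refine ⟨?_, ?_, ?_, ?_⟩
  · by_cases hB : Bd g β
    · rw [I_false (not_not.mpr hB)]
      apply Finset.sum_eq_zero
      intro j _
      apply I_false
      rintro ⟨_, hj⟩
      exact absurd (hB j) (not_lt.mpr hj)
    · rw [I_true hB]
      have hne : (Finset.univ.filter fun l : Fin m => g l ≤ β).Nonempty := by
        unfold Bd at hB
        push Not at hB
        obtain ⟨l, hl⟩ := hB
        exact ⟨l, by simpa using hl⟩
      set s := Finset.univ.filter fun l : Fin m => g l ≤ β with hs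
      have hmem : s.max' hne ∈ s := Finset.max'_mem s hne
      have hle : g (s.max' hne) ≤ β := by simpa [hs] using hmem
      have hmax : ∀ l, s.max' hne < l → β < g l := by
        intro l hl
        by_contra hcon
        have : l ∈ s := by simpa [hs] using not_lt.mp hcon
        exact absurd (Finset.le_max' s l this) (not_le.mpr hl)
      refine sum_I_unique (fun j => Lf g β j ∧ g j ≤ β) (s.max' hne) ⟨?_, hle⟩ ?_
      · intro l hl
        exact ⟨le_trans hle (hmax l hl).le, hmax l hl⟩
      · rintro i ⟨hi1, hi2⟩
        apply le_antisymm
        · exact Finset.le_max' s i (by simpa [hs] using hi2)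
        · by_contra hcon
          have := (hi1 _ (not_le.mp hcon)).2
          omega
  · by_cases hB : ∃ l, g l < β
    · rw [I_true hB]
      have hne : (Finset.univ.filter fun l : Fin m => g l < β).Nonempty := by
        obtain ⟨l, hl⟩ := hB
        exact ⟨l, by simpa using hl⟩
      set s := Finset.univ.filter fun l : Fin m => g l < β with hs
      have hmem : s.min' hne ∈ s := Finset.min'_mem s hne
      have hle : g (s.min' hne) < β := by simpa [hs] using hmem
      have hmin : ∀ l, l < s.min' hne → β ≤ g l := by
        intro l hl
        by_contra hcon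
        have : l ∈ s := by simpa [hs] using not_le.mp hcon
        exact absurd (Finset.min'_le s l this) (not_le.mpr hl)
      refine sum_I_unique (fun j => Rt g β j ∧ g j < β) (s.min' hne) ⟨?_, hle⟩ ?_
      · intro l hl
        exact ⟨hmin l hl, lt_of_lt_of_le hle (hmin l hl)⟩
      · rintro i ⟨hi1, hi2⟩
        apply le_antisymm
        · by_contra hcon
          have := (hi1 _ (not_le.mp hcon)).1
          omega
        · exact Finset.min'_le s i (by simpa [hs] using hi2)
    · rw [I_false hB]
      apply Finset.sum_eq_zero
      intro j _
      apply I_false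
      rintro ⟨_, hj⟩
      exact hB ⟨j, hj⟩
  · intro hP j hL hj
    refine ⟨?_, ?_⟩
    · intro l hl hLl
      have := (hLl j hl).2
      omega
    · intro l hR hlt
      have hlj : l ≤ j := by
        by_contra hcon
        have := (hL l (not_le.mp hcon)).2
        omega
      refine hP l j (Or.inr ⟨hlj, hj, by omega, ?_, ?_⟩)
      · intro l' hl'
        have := hR l' hl'
        omega
      · intro l' hl'
        have := hL l' hl'
        omega
  · intro hP j hR hj
    refine ⟨?_, ?_⟩
    · intro l hL hle
      have hjl : j ≤ l := by
        by_contra hcon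
        have := (hL j (not_le.mp hcon)).2
        omega
      refine (hP j l (Or.inr ⟨hjl, by omega, hj, ?_, ?_⟩)).symm
      · intro l' hl'
        have := hR l' hl'
        omega
      · intro l' hl'
        have := hL l' hl'
        omega
    · intro l hl hRl
      have := (hRl j hl).1
      omega

end Pool.Agent.W129.CY
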